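import Mathlib
import Pool.Agent.Helper50.Tm.Goals

namespace Pool.Agent.Helper28.Tm

open IsLocalRing

/-- Krull: packet TM-KRU of project TAME. -/
theorem gKRU : Pool.Agent.Helper50.Tm.KRU := by
  intro A B _ _ _ _ f g n hn h0 h1
  have key : ∀ i : ℕ, ∀ a ∈ (maximalIdeal A) ^ i,
      g (f a) - (n : A) ^ i * a ∈ (maximalIdeal A) ^ (i + 1) := by
    intro i
    induction i with
    | zero =>
      intro a _
      simpa using h0 a
    | succ i ih =>
      intro a ha
      rw [pow_succ] at ha
      refine Submodule.mul_induction_on ha ?_ ?_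
      · intro x hx y hy
        have hy2 := h1 y hy
        have hy1 : g (f y) ∈ maximalIdeal A := by
          have h2 : g (f y) - (n : A) * y ∈ maximalIdeal A :=
            Ideal.pow_le_self (by norm_num) hy2
          have h3 : (n : A) * y ∈ maximalIdeal A := Ideal.mul_mem_left _ _ hy
          simpa using Ideal.add_mem _ h2 h3
        have e : g (f (x * y)) - (n : A) ^ (i + 1) * (x * y)
            = (g (f x) - (n : A) ^ i * x) * g (f y)
              + ((n : A) ^ i * x) * (g (f y) - (n : A) * y) := by
          rw [map_mul, map_mul]; ring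
        rw [e]
        refine Ideal.add_mem _ ?_ ?_
        · rw [pow_succ (maximalIdeal A) (i + 1)]
          exact Ideal.mul_mem_mul (ih x hx) hy1
        · have : (maximalIdeal A) ^ (i + 1 + 1) = (maximalIdeal A) ^ i * (maximalIdeal A) ^ 2 := by
            rw [← pow_add]
          rw [this]
          exact Ideal.mul_mem_mul (Ideal.mul_mem_left _ _ hx) hy2
      · intro x y hx hy
        have e : g (f (x + y)) - (n : A) ^ (i + 1) * (x + y)
            = (g (f x) - (n : A) ^ (i + 1) * x) + (g (f y) - (n : A) ^ (i + 1) * y) := by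
          rw [map_add, map_add]; ring
        rw [e]
        exact Ideal.add_mem _ hx hy
  rw [injective_iff_map_eq_zero]
  intro a ha
  have hall : ∀ i : ℕ, a ∈ (maximalIdeal A) ^ i := by
    intro i
    induction i with
    | zero => simp
    | succ i ih =>
      have h2 := key i a ih
      rw [ha, map_zero, zero_sub, neg_mem_iff] at h2
      exact (Ideal.unit_mul_mem_iff_mem _ (hn.pow i)).1 h2
  have hbot : (⨅ i : ℕ, (maximalIdeal A) ^ i) = ⊥ :=
    Ideal.iInf_pow_eq_bot_of_isLocalRing _ (Ideal.IsPrime.ne_top')
  have : a ∈ (⨅ i : ℕ, (maximalIdeal A) ^ i) := by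
    rw [Ideal.mem_iInf]; exact hall
  rw [hbot] at this
  simpa using this

end Pool.Agent.Helper28.Tm
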